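import Pool.Agent.Lib.MP_0281e9_an.MainB
import Pool.Agent.Lib.MP_0281e9_an.FixE

namespace Pool.Agent.Results.MP_0281e9_an.PositiveEntropy

open Pool.Agent.Lib.MP_0281e9_an MeasureTheory

/-- There is a smooth strictly convex billiard table whose billiard map has positive
Kolmogorov-Sinai entropy with respect to the Liouville measure. -/
theorem result :
    ∃ (Y : Set ℂ) (γ : ℝ → ℂ) (L : ℝ) (φ : ℝ × ℝ → ℝ × ℝ), IsTable Y γ L ∧ IsBilliardMap γ L φ ∧
      IsProbabilityMeasure (liouville L) ∧ MeasurePreserving φ (liouville L) (liouville L) ∧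
      0 < ksEntropy (liouville L) φ :=
  main_of @curve_fix

end Pool.Agent.Results.MP_0281e9_an.PositiveEntropy
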